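import Mathlib

set_option autoImplicit false

namespace Pool.Agent.Results.MP_c13f7d_co.UpperBound134

open Finset

/-- The number of monochromatic Schur triples `(x, y, x + y)`, `1 ≤ x ≤ y`, `x + y ≤ n`, under the
colouring `c`. -/
def mono (n : ℕ) (c : ℕ → Fin 3) : ℕ :=
  ((Icc 1 n ×ˢ Icc 1 n).filter fun p =>
    p.1 ≤ p.2 ∧ p.1 + p.2 ≤ n ∧ c p.1 = c p.2 ∧ c p.2 = c (p.1 + p.2)).card

/-- The minimum of `mono n c` over all 3-colourings `c`. -/
noncomputable def M3 (n : ℕ) : ℕ := sInf (Set.range (mono n))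

/-- ordered triples -/
def omono (n : ℕ) (c : ℕ → Fin 3) : ℕ :=
  ((Icc 1 n ×ˢ Icc 1 n).filter fun p =>
    p.1 + p.2 ≤ n ∧ c p.1 = c p.2 ∧ c p.2 = c (p.1 + p.2)).card

/-- the seven blocks -/
def blk (i : ℕ) : Fin 3 :=
  if i < 10 then 0 else if i < 24 then 1 else if i < 26 then 0 else if i < 54 then 2
    else if i < 55 then 0 else if i < 66 then 1 else 0

def S1 : Finset (ℕ × ℕ) := (range 67 ×ˢ range 67).filter fun q =>
  q.1 + q.2 < 67 ∧ blk q.1 = blk q.2 ∧ blk q.2 = blk (q.1 + q.2)

def S2 : Finset (ℕ × ℕ) := (range 67 ×ˢ range 67).filter fun q =>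
  q.1 + q.2 + 1 < 67 ∧ blk q.1 = blk q.2 ∧ blk q.2 = blk (q.1 + q.2 + 1)

theorem S_card : S1.card + S2.card = 134 := by decide +kernel

/-- blow up -/
def col (m : ℕ) (x : ℕ) : Fin 3 := blk ((x - 1) / m)

theorem mono_le_omono (n : ℕ) (c : ℕ → Fin 3) : 2 * mono n c ≤ omono n c + n := by
  classical
  set A := ((Icc 1 n ×ˢ Icc 1 n).filter fun p =>
    p.1 ≤ p.2 ∧ p.1 + p.2 ≤ n ∧ c p.1 = c p.2 ∧ c p.2 = c (p.1 + p.2)) with hA
  set O := ((Icc 1 n ×ˢ Icc 1 n).filter fun p =>
    p.1 + p.2 ≤ n ∧ c p.1 = c p.2 ∧ c p.2 = c (p.1 + p.2)) with hO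
  set B := A.image Prod.swap with hB
  have hBc : B.card = A.card := card_image_of_injective _ Prod.swap_injective
  have h1 : A ∪ B ⊆ O := by
    intro p hp
    rw [mem_union] at hp
    rcases hp with hp | hp
    · rw [hA, mem_filter] at hp
      rw [hO, mem_filter]
      exact ⟨hp.1, hp.2.2⟩
    · rw [hB, mem_image] at hp
      obtain ⟨q, hq, rfl⟩ := hp
      rw [hA, mem_filter, mem_product] at hq
      rw [hO, mem_filter, mem_product]
      refine ⟨⟨hq.1.2, hq.1.1⟩, ?_, ?_, ?_⟩
      · simp only [Prod.fst_swap, Prod.snd_swap]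
        have := hq.2.2.1
        omega
      · exact hq.2.2.2.1.symm
      · simp only [Prod.fst_swap, Prod.snd_swap]
        rw [add_comm q.2 q.1, hq.2.2.2.1, hq.2.2.2.2]
  have h2 : A ∩ B ⊆ (Icc 1 n).image (fun x => (x, x)) := by
    intro p hp
    rw [mem_inter] at hp
    obtain ⟨hp1, hp2⟩ := hp
    rw [hA, mem_filter, mem_product] at hp1
    rw [hB, mem_image] at hp2
    obtain ⟨q, hq, rfl⟩ := hp2
    rw [hA, mem_filter] at hq
    have h3 := hp1.2.1
    have h4 := hq.2.1
    simp only [Prod.fst_swap, Prod.snd_swap] at h3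
    rw [mem_image]
    refine ⟨q.1, ?_, ?_⟩
    · have := hp1.1.2
      simpa using this
    · ext
      · simp only [Prod.fst_swap]; omega
      · simp only [Prod.snd_swap]
  have h3 : (A ∩ B).card ≤ n := by
    refine (card_le_card h2).trans (card_image_le.trans ?_)
    simp
  have h4 := card_union_add_card_inter A B
  have h5 := card_le_card h1
  have h6 : mono n c = A.card := rfl
  have h7 : omono n c = O.card := rfl
  omega

theorem card_lt (m : ℕ) :
    2 * ((range m ×ˢ range m).filter fun q => q.1 + q.2 + 1 < m).card ≤ m * m + m := by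
  have e : ((range m ×ˢ range m).filter fun q => q.1 + q.2 + 1 < m).card =
      ∑ a ∈ range m, (m - 1 - a) := by
    rw [card_filter, sum_product]
    refine sum_congr rfl fun a _ => ?_
    rw [← card_filter]
    have : (range m).filter (fun b => a + b + 1 < m) = range (m - 1 - a) := by
      ext b
      simp only [mem_filter, mem_range]
      omega
    rw [this, card_range]
  rw [e, sum_range_reflect (fun i => i) m]
  have := sum_range_id_mul_two m
  have h : m * (m - 1) ≤ m * m := Nat.mul_le_mul_left _ (Nat.sub_le _ _)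
  omega

theorem card_ge (m : ℕ) :
    2 * ((range m ×ˢ range m).filter fun q => m ≤ q.1 + q.2 + 1).card ≤ m * m + m := by
  have e : ((range m ×ˢ range m).filter fun q => m ≤ q.1 + q.2 + 1).card =
      ∑ a ∈ range m, (a + 1) := by
    rw [card_filter, sum_product]
    refine sum_congr rfl fun a ha => ?_
    rw [mem_range] at ha
    rw [← card_filter]
    have : (range m).filter (fun b => m ≤ a + b + 1) = Ico (m - 1 - a) m := by
      ext b
      simp only [mem_filter, mem_range, mem_Ico]
      omega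
    rw [this, Nat.card_Ico]
    omega
  rw [e, sum_add_distrib, sum_const, card_range, smul_eq_mul, mul_one]
  have := sum_range_id_mul_two m
  cases m with
  | zero => simp
  | succ k =>
    have h : (k + 1) * (k + 1 - 1) + (k + 1) = (k + 1) * (k + 1) := by
      rw [Nat.add_sub_cancel]; ring
    omega

set_option maxRecDepth 20000 in
theorem omono_blow (m : ℕ) (hm : 1 ≤ m) : 2 * omono (67 * m) (col m) ≤ 134 * (m * m + m) := by
  classical
  set O := ((Icc 1 (67 * m) ×ˢ Icc 1 (67 * m)).filter fun p =>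
    p.1 + p.2 ≤ 67 * m ∧ col m p.1 = col m p.2 ∧ col m p.2 = col m (p.1 + p.2)) with hO
  set L := ((range m ×ˢ range m).filter fun q => q.1 + q.2 + 1 < m) with hL
  set U := ((range m ×ˢ range m).filter fun q => m ≤ q.1 + q.2 + 1) with hU
  -- the injection into cells
  have hcard : O.card ≤ ((S1 ×ˢ L) ∪ (S2 ×ˢ U)).card := by
    refine card_le_card_of_injOn
      (fun p => (((p.1 - 1) / m, (p.2 - 1) / m), ((p.1 - 1) % m, (p.2 - 1) % m))) ?_ ?_
    · intro p hp
      rw [mem_coe, hO, mem_filter, mem_product, mem_Icc, mem_Icc] at hp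
      have h1 := hp.1.1.1
      have h2 := hp.1.1.2
      have h3 := hp.1.2.1
      have h4 := hp.1.2.2
      have h5 := hp.2.1
      have h6 := hp.2.2.1
      have h7 := hp.2.2.2
      obtain ⟨p1, p2⟩ := p
      obtain ⟨x, hx⟩ : ∃ x, p1 = x + 1 := ⟨p1 - 1, (Nat.sub_add_cancel h1).symm⟩
      obtain ⟨y, hy⟩ : ∃ y, p2 = y + 1 := ⟨p2 - 1, (Nat.sub_add_cancel h3).symm⟩
      subst hx
      subst hy
      simp only [Nat.add_sub_cancel, col] at h5 h6 h7 ⊢
      have hxy : x + 1 + (y + 1) - 1 = x + y + 1 := by omega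
      rw [hxy] at h7
      set i := x / m with hi
      set j := y / m with hj
      set a := x % m with ha
      set b := y % m with hb
      have hxi : m * i + a = x := Nat.div_add_mod x m
      have hyj : m * j + b = y := Nat.div_add_mod y m
      have ham : a < m := Nat.mod_lt _ hm
      have hbm : b < m := Nat.mod_lt _ hm
      have hi67 : i < 67 := by
        rw [hi, Nat.div_lt_iff_lt_mul hm]
        omega
      have hj67 : j < 67 := by
        rw [hj, Nat.div_lt_iff_lt_mul hm]
        omega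
      rw [mem_coe, mem_union, mem_product, mem_product]
      by_cases hab : a + b + 1 < m
      · left
        have hq : (x + y + 1) / m = i + j := by
          have : x + y + 1 = (a + b + 1) + m * (i + j) := by rw [← hxi, ← hyj]; ring
          rw [this, Nat.add_mul_div_left _ _ hm, Nat.div_eq_of_lt hab, zero_add]
        refine ⟨?_, ?_⟩
        · simp only [S1, mem_filter, mem_product, mem_range]
          rw [hq] at h7
          refine ⟨⟨hi67, hj67⟩, ?_, h6, h7⟩
          rw [← hq, Nat.div_lt_iff_lt_mul hm]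
          omega
        · simp only [hL, mem_filter, mem_product, mem_range]
          exact ⟨⟨ham, hbm⟩, hab⟩
      · right
        rw [not_lt] at hab
        have hq : (x + y + 1) / m = i + j + 1 := by
          have : x + y + 1 = (a + b + 1 - m) + m * (i + j + 1) := by
            have e1 : a + b + 1 - m + m * (i + j + 1) = (a + b + 1 - m) + m + m * (i + j) := by ring
            rw [e1, Nat.sub_add_cancel hab, ← hxi, ← hyj]
            ring
          rw [this, Nat.add_mul_div_left _ _ hm, Nat.div_eq_of_lt (by omega), zero_add]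
        refine ⟨?_, ?_⟩
        · simp only [S2, mem_filter, mem_product, mem_range]
          rw [hq] at h7
          refine ⟨⟨hi67, hj67⟩, ?_, h6, h7⟩
          rw [← hq, Nat.div_lt_iff_lt_mul hm]
          omega
        · simp only [hU, mem_filter, mem_product, mem_range]
          exact ⟨⟨ham, hbm⟩, hab⟩
    · intro p hp q hq hpq
      rw [mem_coe, hO, mem_filter, mem_product, mem_Icc, mem_Icc] at hp hq
      simp only [Prod.mk.injEq] at hpq
      obtain ⟨⟨h1, h2⟩, h3, h4⟩ := hpq
      have e1 := Nat.div_add_mod (p.1 - 1) m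
      have e2 := Nat.div_add_mod (q.1 - 1) m
      have e3 := Nat.div_add_mod (p.2 - 1) m
      have e4 := Nat.div_add_mod (q.2 - 1) m
      rw [h1, h3, e2] at e1
      rw [h2, h4, e4] at e3
      have := hp.1
      have := hq.1
      ext
      · omega
      · omega
  have h1 : O.card ≤ S1.card * L.card + S2.card * U.card := by
    refine hcard.trans ((card_union_le _ _).trans ?_)
    rw [card_product, card_product]
  have h2 := card_lt m
  have h3 := card_ge m
  rw [← hL] at h2
  rw [← hU] at h3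
  have h4 : omono (67 * m) (col m) = O.card := rfl
  rw [h4]
  calc 2 * O.card ≤ 2 * (S1.card * L.card + S2.card * U.card) := Nat.mul_le_mul_left _ h1
    _ = S1.card * (2 * L.card) + S2.card * (2 * U.card) := by ring
    _ ≤ S1.card * (m * m + m) + S2.card * (m * m + m) :=
        Nat.add_le_add (Nat.mul_le_mul_left _ h2) (Nat.mul_le_mul_left _ h3)
    _ = (S1.card + S2.card) * (m * m + m) := by ring
    _ = 134 * (m * m + m) := by rw [S_card]

theorem mono_mono {n n' : ℕ} (h : n ≤ n') (c : ℕ → Fin 3) : mono n c ≤ mono n' c := by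
  refine card_le_card ?_
  intro p hp
  rw [mem_filter, mem_product, mem_Icc, mem_Icc] at hp ⊢
  refine ⟨⟨⟨hp.1.1.1, hp.1.1.2.trans h⟩, hp.1.2.1, hp.1.2.2.trans h⟩, hp.2.1, hp.2.2.1.trans h, hp.2.2.2⟩

theorem M3_le (n : ℕ) (c : ℕ → Fin 3) : M3 n ≤ mono n c := Nat.sInf_le ⟨c, rfl⟩

theorem bound (n : ℕ) : (M3 n : ℝ) ≤ (n : ℝ) ^ 2 / 134 + 70 * n + 101 := by
  obtain ⟨m, hm1, h1, h1'⟩ : ∃ m : ℕ, 1 ≤ m ∧ n ≤ 67 * m ∧ 67 * m ≤ n + 67 :=
    ⟨n / 67 + 1, by omega, by omega, by omega⟩
  have h2 : M3 n ≤ mono (67 * m) (col m) := (M3_le n (col m)).trans (mono_mono h1 _)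
  have h3 := mono_le_omono (67 * m) (col m)
  have h4 := omono_blow m hm1
  have h5 : 4 * M3 n ≤ 134 * (m * m + m) + 2 * (67 * m) := by omega
  have h6 : (4 * M3 n : ℝ) ≤ 134 * ((m:ℝ) * m + m) + 2 * (67 * m) := by exact_mod_cast h5
  have h7 : (67 * m : ℝ) ≤ n + 67 := by exact_mod_cast h1'
  have h8 : (0:ℝ) ≤ m := by positivity
  have h9 : (0:ℝ) ≤ n := by positivity
  have h10 : (67 * m : ℝ) * (67 * m) ≤ (n + 67) * (n + 67) := mul_self_le_mul_self (by positivity) h7
  nlinarith

/-- `M₃(n) ≤ n²/134 + O(n)`, so the upper limit of `M₃(n)/n²` is at most `1/134`. -/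
theorem result :
    (∃ C : ℝ, ∀ n : ℕ, (M3 n : ℝ) ≤ (n : ℝ) ^ 2 / 134 + C * n) ∧
      Filter.limsup (fun n : ℕ => (M3 n : ℝ) / (n : ℝ) ^ 2) Filter.atTop ≤ 1 / 134 := by
  have key : ∀ n : ℕ, (M3 n : ℝ) ≤ (n : ℝ) ^ 2 / 134 + 171 * n := by
    intro n
    rcases Nat.eq_zero_or_pos n with rfl | hn
    · have : M3 0 = 0 := by
        have := M3_le 0 (fun _ => 0)
        have h2 : mono 0 (fun _ => 0) = 0 := by simp [mono]
        omega
      rw [this]
      simp
    · have h1 : (1:ℝ) ≤ n := by exact_mod_cast hn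
      have := bound n
      linarith
  refine ⟨⟨171, key⟩, ?_⟩
  have hlim : Filter.Tendsto (fun n : ℕ => (1:ℝ) / 134 + 171 * (n : ℝ)⁻¹) Filter.atTop (nhds (1 / 134)) := by
    have := (tendsto_inv_atTop_nhds_zero_nat (𝕜 := ℝ)).const_mul 171
    simpa using this.const_add ((1:ℝ) / 134)
  refine (Filter.limsup_le_limsup (v := fun n : ℕ => (1:ℝ) / 134 + 171 * (n : ℝ)⁻¹) ?_ ?_ ?_).trans
    hlim.limsup_eq.le
  · filter_upwards [Filter.eventually_gt_atTop 0] with n hn
    have hn' : (0:ℝ) < n := by exact_mod_cast hn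
    rw [div_le_iff₀ (by positivity)]
    have := key n
    have e : (1 / 134 + 171 * (n:ℝ)⁻¹) * (n:ℝ) ^ 2 = (n:ℝ)^2 / 134 + 171 * n := by
      field_simp
    rw [e]
    exact this
  · refine Filter.IsCoboundedUnder.of_frequently_ge (a := 0) ?_
    refine Filter.Frequently.of_forall fun n => ?_
    positivity
  · exact hlim.isBoundedUnder_le

end Pool.Agent.Results.MP_c13f7d_co.UpperBound134
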